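import Pool.Agent.Lib.MP_d0f9e0_co.AR.Law
import Pool.Agent.Lib.MP_d0f9e0_co.GH.FinalA
import Pool.Agent.Lib.MP_d0f9e0_co.SH.Inst

set_option autoImplicit false

/-!
# The law in the form of `GH/FinalA`, and the conditional final theorem
-/

namespace Pool.MP_d0f9e0_co.AR

open SH (V Hyp ell det pw DS Disc)
open GH Pool.Agent.Lib.MP_d0f9e0_co.FN

/-- The congruence law for all lattices. -/
theorem allLaw {S : ℝ → ℝ → ℝ → ℝ} (h : DS S) (hNG : AllNG S) : AllLaw S := by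
  intro θ A η L δ u w tr hθ hA h1 hLat hst htr
  obtain ⟨N, hN⟩ := law h hNG hθ hA h1 hLat hst htr
  exact ⟨N, fun q hq hNq hD O hO x hx _ => hN q hq hNq hD O hO ⟨x, hx⟩⟩

/-- `d ≥ 4`, from near group data for all lattices alone. -/
theorem hasETF_of_allNG {S : ℝ → ℝ → ℝ → ℝ} (h : DS S) (hNG : AllNG S) {d : ℕ} (hd : 4 ≤ d) :
    HasETF d :=
  hasETF_of_allLaw h.cs hNG (allLaw h hNG) hd

end Pool.MP_d0f9e0_co.AR
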