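import Pool.Agent.Lib.MP_d0f9e0_co.LL54.Basis

set_option autoImplicit false

/-!
# The leaf lattice of an arbitrary `w` of order `q^j` has an oriented basis
-/

namespace Pool.MP_d0f9e0_co.AR

open SH (V det)
open GH LL54

variable {L : AddSubgroup V} {δ : ℚ} {u w : V} {q j : ℕ}

theorem leaf_aux (hL : Lat L δ u w) (hq : q.Prime) {x y : ℤ} {p : V}
    (e : (q ^ j) • p = x • u + y • w) (hx : ¬ (q : ℤ) ∣ x) :
    ∃ (δ' : ℚ) (u' w' : V), Lat (Lw L p) δ' u' w' := by
  have hc : IsCoprime x ((q : ℤ) ^ j) := by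
    apply IsCoprime.pow_right
    rw [isCoprime_comm]
    exact (Nat.prime_iff_prime_int.mp hq).coprime_iff_not_dvd.mpr hx
  obtain ⟨k, m, hkm⟩ := hc
  have hqj : (q ^ j) ≠ 0 := pow_ne_zero _ hq.ne_zero
  -- `k p = wt + (-m) u`, `x wt = p + ...`
  have h1 : k • p = wt q j u w (k * y) + (-m) • u := by
    apply nsmul_inj hqj
    rw [smul_add, nsmul_wt hq.ne_zero, smul_comm, e, smul_add, smul_smul, smul_smul]
    have h2 : (q ^ j) • ((-m) • u) = (-(m * (q : ℤ) ^ j)) • u := by
      rw [← natCast_zsmul, smul_smul]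
      congr 1
      push_cast
      ring
    have h3 : k * x = 1 + -(m * (q : ℤ) ^ j) := by linarith
    rw [h2, h3, add_smul, one_smul]
    abel
  have h4 : x • wt q j u w (k * y) = p + (-(m * y)) • w := by
    apply nsmul_inj hqj
    rw [smul_comm, nsmul_wt hq.ne_zero, smul_add, smul_add, e, smul_smul]
    have h2 : (q ^ j) • ((-(m * y)) • w) = (-(m * (q : ℤ) ^ j) * y) • w := by
      rw [← natCast_zsmul, smul_smul]
      congr 1
      push_cast
      ring
    have h3 : x * (k * y) = y + -(m * (q : ℤ) ^ j) * y := by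
      linear_combination y * hkm
    rw [h2, h3, add_smul]
    abel
  have h5 : Lw L p = Lw L (wt q j u w (k * y)) := by
    apply le_antisymm
    · unfold Lw
      refine sup_le le_sup_left ?_
      rw [AddSubgroup.zmultiples_le]
      refine mem_Lw.mpr ⟨(m * y) • w, L.zsmul_mem hL.right_mem _, x, ?_⟩
      rw [h4, neg_smul]
      abel
    · unfold Lw
      refine sup_le le_sup_left ?_
      rw [AddSubgroup.zmultiples_le]
      refine mem_Lw.mpr ⟨m • u, L.zsmul_mem hL.left_mem _, k, ?_⟩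
      rw [h1, neg_smul]
      abel
  rw [h5]
  exact ⟨_, _, _, lat_leaf hL hq.ne_zero (k * y)⟩

/-- The leaf lattices are lattices. -/
theorem leaf_lat (hL : Lat L δ u w) (hq : q.Prime) {p : V} (hp : Wt L q j p) :
    ∃ (δ' : ℚ) (u' w' : V), Lat (Lw L p) δ' u' w' := by
  have h1 := hp.mem
  rw [hL.eq, AddSubgroup.mem_closure_pair] at h1
  obtain ⟨x, y, e⟩ := h1
  by_cases hx : (q : ℤ) ∣ x
  · by_cases hy : (q : ℤ) ∣ y
    · exfalso
      obtain ⟨x', rfl⟩ := hx
      obtain ⟨y', rfl⟩ := hy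
      refine hp.prim ⟨x' • u + y' • w, L.add_mem (L.zsmul_mem hL.left_mem _)
        (L.zsmul_mem hL.right_mem _), ?_⟩
      rw [← e, mul_smul, mul_smul, smul_add, natCast_zsmul, natCast_zsmul]
    · refine leaf_aux (j := j) (lat_swap hL) hq (x := y) (y := -x) ?_ hy
      rw [← e, neg_smul, smul_neg, neg_neg, add_comm]
  · exact leaf_aux hL hq e.symm hx

end Pool.MP_d0f9e0_co.AR
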