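import Pool.Agent.Lib.MP_d0f9e0_co.AR81.Tors
import Pool.Agent.Lib.MP_d0f9e0_co.AC76.Shift
import Pool.Agent.Lib.MP_d0f9e0_co.LL54.Basis
import Pool.Agent.Lib.MP_d0f9e0_co.GH.Adm
import Pool.Agent.Lib.MP_d0f9e0_co.GH.AllNG
import Pool.Agent.Lib.MP_d0f9e0_co.GH.Gal32
import Pool.Agent.Lib.MP_d0f9e0_co.AR.LeafLat

set_option autoImplicit false

/-!
# The congruence law of the arithmetic part

`law`: for every hyperbolic `B` and every `B`-stable lattice `L` the function `C = c²` on the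
fixed points of `B` in `V / L` satisfies `C (q x) ≡ C (x) ^ (q²)` at all places of `ℂ` over the
large inert primes `q`. `exists_sigma`: there is an automorphism `σ` of `ℂ` with `|σ (c x)| = 1`.
-/

namespace Pool.MP_d0f9e0_co.AR

open SH (V Hyp ell det pw DS Disc)
open GH LL54

theorem ind_eq_iff {B : V ≃+ V} {L : AddSubgroup V} (hst : ∀ p, B p ∈ L ↔ p ∈ L) (x : V ⧸ L) :
    AR81.ind B L hst x = x ↔ x ∈ Fx B L := by
  obtain ⟨p, rfl⟩ := QuotientAddGroup.mk_surjective x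
  rw [AR81.ind_mk, mem_Fx hst, eq_comm, QuotientAddGroup.eq, neg_add_eq_sub]

/-- The near group data of the leaf lattices. -/
theorem leafNG {S : ℝ → ℝ → ℝ → ℝ} (hNG : AllNG S) {θ η : ℝ} (hθ : Irrational θ) {A : V ≃+ V}
    {L : AddSubgroup V} {q j : ℕ} {T : ℤ} (hA : Hyp θ A η) (h1 : 1 < η) (h : Amb A L q j T)
    {δ : ℚ} {u w : V} (hLat : GH.Lat L δ u w) :
    AC.LeafNG S θ η A L q j := by
  intro wv hw
  obtain ⟨δ', u', w', hL'⟩ := leaf_lat hLat h.prime hw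
  have hst' : Stb A (Lw L wv) := h.stable_Lw hw
  have hfin := finite_Fx hθ hA h1 hL' hst'
  have hF : Fintype (Fx A (Lw L wv)) := Fintype.ofFinite _
  exact ⟨hF, _, _, hNG θ A η (Lw L wv) δ' u' w' hθ hA h1 hL' hst'⟩

/-- The shift congruence. -/
theorem shift {S : ℝ → ℝ → ℝ → ℝ} (h : DS S) (hNG : AllNG S) {θ : ℝ} (hθ : Irrational θ)
    {Γ₀ : Type*} [LinearOrderedCommGroupWithZero Γ₀] (v : Valuation ℂ Γ₀)
    {A : V ≃+ V} {L : AddSubgroup V} {δ : ℚ} {u w : V} {η : ℝ}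
    (hA : Hyp θ A η) (h1 : 1 < η) (hLat : GH.Lat L δ u w) {q j : ℕ} {T : ℤ}
    (hamb : Amb A L q j T) (hT : η + η⁻¹ = T)
    (hq2 : q ≠ 2) (hv : v (q : ℂ) < 1) {x : V ⧸ L} (hx : x ∈ Fx A L) {t : V ⧸ L}
    (ht : q • t = 0) :
    v (((cL S θ A L (x + t) : ℂ) / cL S θ A L x) ^ 2 - 1) < 1 := by
  obtain ⟨v0, hv0L, hv0, hv0d⟩ := exists_adm hθ hA h1 hLat
  have hgood : SH.Good θ A η := { hA with ex := ⟨v0, hv0, hv0d⟩ }
  have hL' : SH.Lat L := by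
    refine ⟨AR81.lat_disc hLat, fun p => ?_⟩
    obtain ⟨n, hn, hn'⟩ := exists_mul_mem hLat p
    exact ⟨n, hn, hn'⟩
  have hst : Stb A L := hamb.stable
  obtain ⟨p, rfl⟩ := QuotientAddGroup.mk_surjective x
  obtain ⟨t, rfl⟩ := QuotientAddGroup.mk_surjective t
  rw [mem_Fx hst] at hx
  rw [← QuotientAddGroup.mk_nsmul, QuotientAddGroup.eq_zero_iff] at ht
  have hspan : ∀ l ∈ L, ∃ a b : ℤ, l = a • u + b • w := by
    intro l hl
    rw [hLat.eq, AddSubgroup.mem_closure_pair] at hl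
    obtain ⟨a, b, e⟩ := hl
    exact ⟨a, b, e.symm⟩
  have hq1 : ¬ (q : ℤ) ∣ 1 := by
    intro hd
    have h2 : q ∣ 1 := by exact_mod_cast hd
    exact hamb.prime.one_lt.ne' (Nat.dvd_one.mp h2)
  have hprim1 : ∀ s : ℕ, ¬ ∃ r ∈ L, w + s • u = q • r := by
    rintro s ⟨r, hr, e⟩
    refine hq1 (LL54.Lat.ind_smul hLat (x := s) (y := 1) hr ?_).2
    rw [← e, one_smul, natCast_zsmul, add_comm]
  have hprim2 : ∀ s : ℕ, ¬ ∃ r ∈ L, u + s • w = q • r := by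
    rintro s ⟨r, hr, e⟩
    refine hq1 (LL54.Lat.ind_smul hLat (x := 1) (y := s) hr ?_).1
    rw [← e, one_smul, natCast_zsmul]
  have key := AC.shift v h hθ hgood hL' hamb hT hq2 hv (leafNG hNG hθ hA h1 hamb hLat) hspan
    hLat.left_mem hLat.right_mem hprim1 hprim2 hx ht
  unfold AC.Near AC.csq at key
  rw [div_pow, ← QuotientAddGroup.mk_add]
  exact key

/-- **The law**: `C = c²` satisfies `C (q x) ≡ C (x)^(q²)` at every place over an inert `q`. -/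
theorem law {S : ℝ → ℝ → ℝ → ℝ} (h : DS S) (hNG : AllNG S) {θ : ℝ} (hθ : Irrational θ)
    {B : V ≃+ V} {L : AddSubgroup V} {δ : ℚ} {u w : V} {η : ℝ} (hB : Hyp θ B η) (h1 : 1 < η)
    (hLat : GH.Lat L δ u w) (hst : Stb B L) {tr : ℤ} (htr : η + η⁻¹ = tr) :
    ∃ N : ℕ, ∀ q : ℕ, q.Prime → N < q → ¬ IsSquare ((tr ^ 2 - 4 : ℤ) : ZMod q) →
      ∀ O : ValuationSubring ℂ, (q : ℂ) ∈ O.nonunits → ∀ t : Fx B L,
        ((cL S θ B L t ^ 2 : ℝ) : ℂ) ∈ O ∧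
          ((cL S θ B L t ^ 2 : ℝ) : ℂ) ^ (q ^ 2) -
            ((cL S θ B L ((q • t : Fx B L) : V ⧸ L) ^ 2 : ℝ) : ℂ) ∈ O.nonunits := by
  have hst' : ∀ p, B p ∈ L ↔ p ∈ L := hst
  have hfin := finite_Fx hθ hB h1 hLat hst
  obtain ⟨T0, -, hT0, -, -, hCH0⟩ := exists_trace hθ hB h1 hLat hst
  have hTT : T0 = tr := by
    have h2 := hT0.symm.trans htr
    exact_mod_cast h2
  have hCH : CH B tr := by rw [← hTT]; exact hCH0
  refine ⟨max 2 (Nat.card (Fx B L)), ?_⟩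
  intro q hq hNq hD O hqO t
  have hq2 : q ≠ 2 := by
    have := le_max_left 2 (Nat.card (Fx B L))
    omega
  have hcard0 : Nat.card (Fx B L) ≠ 0 := Nat.card_pos.ne'
  have hcop : q.Coprime (Nat.card (Fx B L)) := by
    rw [hq.coprime_iff_not_dvd]
    intro hd
    have h2 := Nat.le_of_dvd (Nat.pos_of_ne_zero hcard0) hd
    have h3 := le_max_right 2 (Nat.card (Fx B L))
    omega
  obtain ⟨J, j, T', hJ, hamb, hT', hord⟩ := exists_amb hB h1 hLat hst' htr hq hD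
  obtain ⟨Vq, hVq, hVc⟩ := AR81.exists_Vq hLat hq.pos
  obtain ⟨v, hvL, hv0, hvd⟩ := exists_adm hθ hB h1 hLat
  have hd : Disc (L : Set V) := AR81.lat_disc hLat
  have hqv : O.valuation (q : ℂ) < 1 := (ValuationSubring.mem_nonunits_iff _).mp hqO
  have hId : Idm B L q J := (hord J).mpr dvd_rfl
  have hone : ∀ s ∈ Vq, ((AR81.ind B L hst')^[J]) s = s := fun s hs =>
    ind_fix hst' hq.ne_zero hId ((hVq s).mp hs)
  have htwo : ∀ i, 0 < i → i < J → ∀ s ∈ Vq, s ≠ 0 → ((AR81.ind B L hst')^[i]) s ≠ s :=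
    fun i hi hiJ s hs hs0 =>
      ind_free hq hLat hCH hst' hD hord hi hiJ ((hVq s).mp hs) hs0
  have hstJ : ∀ p, (pw B J) p ∈ L ↔ p ∈ L := hamb.stable
  have hcong : ∀ x : V ⧸ L, AR81.ind B L hst' x = x → ∀ s : V ⧸ L, q • s = 0 →
      O.valuation (((cL S θ (pw B J) L (x + s) : ℂ) / cL S θ (pw B J) L x) ^ 2 - 1) < 1 := by
    intro x hx s hs
    refine shift h hNG hθ O.valuation (hB.pow J) (one_lt_pow₀ h1 hJ.ne') hLat hamb hT' hq2 hqv ?_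
      hs
    obtain ⟨p, rfl⟩ := QuotientAddGroup.mk_surjective x
    rw [mem_Fx hstJ]
    have h2 : ((AR81.ind B L hst')^[J]) (QuotientAddGroup.mk p) = QuotientAddGroup.mk p :=
      Function.iterate_fixed hx J
    rw [AR81.ind_iter, eq_comm, QuotientAddGroup.eq, neg_add_eq_sub] at h2
    exact h2
  have hx : AR81.ind B L hst' (t : V ⧸ L) = t := (ind_eq_iff hst' _).mpr t.2
  have hNt : Nat.card (Fx B L) • (t : V ⧸ L) = 0 := by
    have h2 : Nat.card (Fx B L) • t = 0 := card_nsmul_eq_zero'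
    rw [← AddSubgroup.coe_nsmul, h2, AddSubgroup.coe_zero]
  obtain ⟨e1, e2⟩ := AR81.frobSH O.valuation h hθ hB hst' hd hvL hv0 hvd hq.one_lt hJ Vq hVq hVc
    hone htwo hcong hx hNt hcop
  refine ⟨?_, ?_⟩
  · rw [← ValuationSubring.valuation_le_one_iff]
    push_cast
    rw [map_pow, e1, one_pow]
  · rw [ValuationSubring.mem_nonunits_iff, ← Valuation.map_sub_swap]
    push_cast
    exact e2

/-- **Unimodularity at one conjugate**, for every hyperbolic `B` and `B`-stable lattice `L`. -/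
theorem exists_sigma {S : ℝ → ℝ → ℝ → ℝ} (h : DS S) (hNG : AllNG S) {θ : ℝ} (hθ : Irrational θ)
    {B : V ≃+ V} {L : AddSubgroup V} {δ : ℚ} {u w : V} {η : ℝ} (hB : Hyp θ B η) (h1 : 1 < η)
    (hLat : GH.Lat L δ u w) (hst : Stb B L) {tr : ℤ} (htr : η + η⁻¹ = tr) :
    ∃ σ : ℂ ≃+* ℂ, σ ((Real.sqrt ((tr : ℝ) ^ 2 - 4) : ℝ) : ℂ) =
        -((Real.sqrt ((tr : ℝ) ^ 2 - 4) : ℝ) : ℂ) ∧
      (∀ x : Fx B L, x ≠ 0 → ‖σ ((cL S θ B L x : ℝ) : ℂ)‖ = 1) ∧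
      ∀ x : Fx B L, ‖σ (zL θ B L x / zL θ B L (0 : V ⧸ L))‖ = 1 := by
  have hfin := finite_Fx hθ hB h1 hLat hst
  have hF : Fintype (Fx B L) := Fintype.ofFinite _
  obtain ⟨T0, hT3, hT0, -, -, -⟩ := exists_trace hθ hB h1 hLat hst
  have hTT : T0 = tr := by
    have h2 := hT0.symm.trans htr
    exact_mod_cast h2
  obtain ⟨N, hN⟩ := law h hNG hθ hB h1 hLat hst htr
  obtain ⟨σ, e1, e2, e3⟩ := (hNG θ B η L δ u w hθ hB h1 hLat hst).exists_sigma tr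
    (by rw [← hTT]; exact hT3) N
    (fun q hq hNq hD O hqO x _ => hN q hq hNq hD O hqO x)
  exact ⟨σ, e1, e2, e3⟩

end Pool.MP_d0f9e0_co.AR
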